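import Pool.Agent.H306R2.RZ.Defs4

/-!
Project RZ (MP_0016c7_nt), fourth wave, task HB: bilinear bound for pairs with a common divisor.
-/

set_option autoImplicit false

namespace Pool.Agent.H375R3.RZ4

open Finset Filter Topology MeasureTheory Pool.Agent.H306R2.RZ

noncomputable section

theorem js_mul_right (k : ℤ) (a b : ℕ) (ha : a ≠ 0) (hb : b ≠ 0) :
    js k (a * b) = js k a * js k b := by
  unfold js
  rw [jacobiSym.mul_right' k ha hb]
  push_cast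
  rfl

theorem js_mul_left (k l : ℤ) (n : ℕ) : js (k * l) n = js k n * js l n := by
  unfold js
  rw [jacobiSym.mul_left]
  push_cast
  rfl

theorem js_abs_le (k : ℤ) (n : ℕ) : |js k n| ≤ 1 := by
  unfold js
  rcases jacobiSym.trichotomy k n with h | h | h <;> rw [h] <;> norm_num

/-- the sum over the squarefree integers of both signs -/
theorem both_signs (N K : ℕ) (B : ℝ) (hB : 0 ≤ B) (h : LSB K N B) (S : Finset ℤ)
    (hS : ∀ k ∈ S, Squarefree k.natAbs ∧ k.natAbs ≤ K) (x : ℕ → ℂ) :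
    ∑ k ∈ S, ‖∑ n ∈ osf N, x n * (js k n : ℂ)‖ ^ 2 ≤ 2 * B * ∑ n ∈ osf N, ‖x n‖ ^ 2 := by
  classical
  have hne : ∀ k ∈ S, k ≠ 0 := by
    intro k hk h0
    have := (hS k hk).1
    rw [h0] at this
    simp at this
  have hmem : ∀ k ∈ S, k.natAbs ∈ sqf K := by
    intro k hk
    unfold sqf
    rw [mem_filter, mem_Icc]
    refine ⟨⟨?_, (hS k hk).2⟩, (hS k hk).1⟩
    exact Int.natAbs_pos.2 (hne k hk)
  rw [← Finset.sum_filter_add_sum_filter_not S (fun k => 0 < k)]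
  have h1 : ∑ k ∈ S with 0 < k, ‖∑ n ∈ osf N, x n * (js k n : ℂ)‖ ^ 2 ≤
      B * ∑ n ∈ osf N, ‖x n‖ ^ 2 := by
    refine le_trans ?_ (h x)
    have h2 : ∑ k ∈ S with 0 < k, ‖∑ n ∈ osf N, x n * (js k n : ℂ)‖ ^ 2 =
        ∑ m ∈ (S.filter fun k => 0 < k).image Int.natAbs,
          ‖∑ n ∈ osf N, x n * (js (m : ℤ) n : ℂ)‖ ^ 2 := by
      rw [Finset.sum_image]
      · refine Finset.sum_congr rfl fun k hk => ?_
        rw [mem_filter] at hk
        rw [Int.natAbs_of_nonneg hk.2.le]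
      · intro a ha b hb hab
        rw [Finset.mem_coe, mem_filter] at ha hb
        rw [← Int.natAbs_of_nonneg ha.2.le, ← Int.natAbs_of_nonneg hb.2.le, hab]
    rw [h2]
    refine Finset.sum_le_sum_of_subset_of_nonneg ?_ (fun _ _ _ => by positivity)
    intro m hm
    rw [mem_image] at hm
    obtain ⟨k, hk, rfl⟩ := hm
    exact hmem k (mem_filter.1 hk).1
  have h3 : ∑ k ∈ S with ¬ 0 < k, ‖∑ n ∈ osf N, x n * (js k n : ℂ)‖ ^ 2 ≤
      B * ∑ n ∈ osf N, ‖x n‖ ^ 2 := by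
    refine le_trans ?_ ((h (fun n => x n * (js (-1) n : ℂ))).trans ?_)
    · have h2 : ∑ k ∈ S with ¬ 0 < k, ‖∑ n ∈ osf N, x n * (js k n : ℂ)‖ ^ 2 =
          ∑ m ∈ (S.filter fun k => ¬ 0 < k).image Int.natAbs,
            ‖∑ n ∈ osf N, x n * (js (-1) n : ℂ) * (js (m : ℤ) n : ℂ)‖ ^ 2 := by
        rw [Finset.sum_image]
        · refine Finset.sum_congr rfl fun k hk => ?_
          rw [mem_filter] at hk
          have hk2 : k ≤ 0 := not_lt.1 hk.2
          have hk3 : k = (-1) * ((k.natAbs : ℕ) : ℤ) := by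
            rw [Int.ofNat_natAbs_of_nonpos hk2]; ring
          congr 2
          refine Finset.sum_congr rfl fun n _ => ?_
          conv_lhs => rw [hk3, js_mul_left]
          push_cast
          ring
        · intro a ha b hb hab
          rw [Finset.mem_coe, mem_filter] at ha hb
          have ha2 := Int.ofNat_natAbs_of_nonpos (not_lt.1 ha.2)
          have hb2 := Int.ofNat_natAbs_of_nonpos (not_lt.1 hb.2)
          rw [hab, hb2] at ha2
          linarith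
      rw [h2]
      refine Finset.sum_le_sum_of_subset_of_nonneg ?_ (fun _ _ _ => by positivity)
      intro m hm
      rw [mem_image] at hm
      obtain ⟨k, hk, rfl⟩ := hm
      exact hmem k (mem_filter.1 hk).1
    · refine mul_le_mul_of_nonneg_left (Finset.sum_le_sum fun n _ => ?_) hB
      rw [norm_mul, Complex.norm_real, Real.norm_eq_abs]
      have h4 := js_abs_le (-1) n
      have h5 : ‖x n‖ * |js (-1) n| ≤ ‖x n‖ := mul_le_of_le_one_right (norm_nonneg _) h4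
      gcongr
  linarith

/-- the indicator of coprimality -/
theorem moeb_ind (R n1 n2 : ℕ) (h1 : 1 ≤ n1) (h1R : n1 ≤ R) :
    ∑ c ∈ Icc 1 R, (if c ∣ n1 ∧ c ∣ n2 then ((ArithmeticFunction.moebius c : ℤ) : ℂ) else 0) =
      if n1.Coprime n2 then 1 else 0 := by
  rw [← Finset.sum_filter]
  have h2 : (Icc 1 R).filter (fun c => c ∣ n1 ∧ c ∣ n2) = (n1.gcd n2).divisors := by
    ext c
    rw [mem_filter, mem_Icc, Nat.mem_divisors, Nat.dvd_gcd_iff]
    have hg : n1.gcd n2 ≠ 0 := (Nat.gcd_pos_of_pos_left _ h1).ne'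
    constructor
    · rintro ⟨_, h⟩
      exact ⟨h, hg⟩
    · rintro ⟨h, _⟩
      refine ⟨⟨Nat.pos_of_dvd_of_pos h.1 h1, (Nat.le_of_dvd h1 h.1).trans h1R⟩, h⟩
  rw [h2]
  have h3 := congrArg (fun f => f (n1.gcd n2)) ArithmeticFunction.moebius_mul_coe_zeta
  simp only [ArithmeticFunction.coe_mul_zeta_apply, ArithmeticFunction.one_apply] at h3
  have h4 : ((∑ i ∈ (n1.gcd n2).divisors, ArithmeticFunction.moebius i : ℤ) : ℂ) =
      ((if n1.gcd n2 = 1 then 1 else 0 : ℤ) : ℂ) := by rw [h3]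
  rw [Int.cast_sum] at h4
  rw [h4]
  unfold Nat.Coprime
  split_ifs <;> simp

/-- the coefficients -/
def xc (g : ℕ) (f : ℕ → ℂ) (c n : ℕ) : ℂ := if c ∣ n ∧ n.Coprime g then f n else 0

theorem expand (R g : ℕ) (f1 f2 : ℕ → ℂ) (k : ℤ) :
    (∑ n1 ∈ osf R, ∑ n2 ∈ osf R,
      if n1.Coprime n2 ∧ n1.Coprime g ∧ n2.Coprime g then
        f1 n1 * f2 n2 * (js k (n1 * n2) : ℂ) else 0) =
    ∑ c ∈ Icc 1 R, ((ArithmeticFunction.moebius c : ℤ) : ℂ) *
      ((∑ n ∈ osf R, xc g f1 c n * (js k n : ℂ)) * (∑ n ∈ osf R, xc g f2 c n * (js k n : ℂ))) := by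
  have h1 : ∀ c, ((ArithmeticFunction.moebius c : ℤ) : ℂ) *
      ((∑ n ∈ osf R, xc g f1 c n * (js k n : ℂ)) * (∑ n ∈ osf R, xc g f2 c n * (js k n : ℂ))) =
      ∑ n1 ∈ osf R, ∑ n2 ∈ osf R, ((ArithmeticFunction.moebius c : ℤ) : ℂ) *
        ((xc g f1 c n1 * (js k n1 : ℂ)) * (xc g f2 c n2 * (js k n2 : ℂ))) := by
    intro c
    rw [Finset.sum_mul_sum, Finset.mul_sum]
    refine Finset.sum_congr rfl fun n1 _ => ?_
    rw [Finset.mul_sum]
  have h0 : ∑ c ∈ Icc 1 R, ((ArithmeticFunction.moebius c : ℤ) : ℂ) *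
      ((∑ n ∈ osf R, xc g f1 c n * (js k n : ℂ)) * (∑ n ∈ osf R, xc g f2 c n * (js k n : ℂ))) =
      ∑ n1 ∈ osf R, ∑ n2 ∈ osf R, ∑ c ∈ Icc 1 R, ((ArithmeticFunction.moebius c : ℤ) : ℂ) *
        ((xc g f1 c n1 * (js k n1 : ℂ)) * (xc g f2 c n2 * (js k n2 : ℂ))) := by
    rw [Finset.sum_congr rfl fun c _ => h1 c, Finset.sum_comm]
    refine Finset.sum_congr rfl fun n1 _ => ?_
    rw [Finset.sum_comm]
  rw [h0]
  refine Finset.sum_congr rfl fun n1 hn1 => ?_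
  refine Finset.sum_congr rfl fun n2 hn2 => ?_
  unfold osf at hn1 hn2
  rw [mem_filter, mem_Icc] at hn1 hn2
  have h2 := moeb_ind R n1 n2 hn1.1.1 hn1.1.2
  rw [js_mul_right k n1 n2 (by omega) (by omega)]
  by_cases hc1 : n1.Coprime g
  · by_cases hc2 : n2.Coprime g
    · have h3 : ∀ c, ((ArithmeticFunction.moebius c : ℤ) : ℂ) *
          ((xc g f1 c n1 * (js k n1 : ℂ)) * (xc g f2 c n2 * (js k n2 : ℂ))) =
          (if c ∣ n1 ∧ c ∣ n2 then ((ArithmeticFunction.moebius c : ℤ) : ℂ) else 0) *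
          (f1 n1 * f2 n2 * ((js k n1 : ℂ) * (js k n2 : ℂ))) := by
        intro c
        unfold xc
        by_cases hd1 : c ∣ n1
        · by_cases hd2 : c ∣ n2
          · rw [if_pos ⟨hd1, hc1⟩, if_pos ⟨hd2, hc2⟩, if_pos ⟨hd1, hd2⟩]
            ring
          · simp [hd2]
        · simp [hd1]
      simp only [h3]
      rw [← Finset.sum_mul, h2]
      by_cases h4 : n1.Coprime n2
      · rw [if_pos ⟨h4, hc1, hc2⟩, if_pos h4]
        push_cast
        ring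
      · rw [if_neg (fun h => h4 h.1), if_neg h4]
        ring
    · rw [if_neg (fun h => hc2 h.2.2)]
      symm
      refine Finset.sum_eq_zero fun c _ => ?_
      unfold xc
      rw [if_neg (fun h : c ∣ n2 ∧ n2.Coprime g => hc2 h.2)]
      ring
  · rw [if_neg (fun h => hc1 h.2.1)]
    symm
    refine Finset.sum_eq_zero fun c _ => ?_
    unfold xc
    rw [if_neg (fun h : c ∣ n1 ∧ n1.Coprime g => hc1 h.2)]
    ring

theorem one_c (N K g c : ℕ) (B : ℝ) (hB : 0 ≤ B) (h : LSB K N B) (S : Finset ℤ)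
    (hS : ∀ k ∈ S, Squarefree k.natAbs ∧ k.natAbs ≤ K) (f : ℕ → ℂ) (b : ℕ → ℝ)
    (hfb : ∀ n, ‖f n‖ ^ 2 ≤ b n) :
    ∑ k ∈ S, ‖∑ n ∈ osf N, xc g f c n * (js k n : ℂ)‖ ^ 2 ≤
      2 * B * ∑ n ∈ osf N, (if c ∣ n ∧ n.Coprime g then b n else 0) := by
  refine (both_signs N K B hB h S hS (xc g f c)).trans ?_
  refine mul_le_mul_of_nonneg_left (Finset.sum_le_sum fun n _ => ?_) (by positivity)
  unfold xc
  split_ifs with h1
  · exact hfb n
  · simp

theorem count_div (R n : ℕ) (h1 : 1 ≤ n) (hR : n ≤ R) (b : ℝ) :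
    ∑ c ∈ Icc 1 R, (if c ∣ n then b else 0) = (n.divisors.card : ℝ) * b := by
  rw [← Finset.sum_filter]
  have h2 : (Icc 1 R).filter (fun c => c ∣ n) = n.divisors := by
    ext c
    rw [mem_filter, mem_Icc, Nat.mem_divisors]
    constructor
    · rintro ⟨_, h⟩
      exact ⟨h, by omega⟩
    · rintro ⟨h, _⟩
      exact ⟨⟨Nat.pos_of_dvd_of_pos h h1, (Nat.le_of_dvd h1 h).trans hR⟩, h⟩
  rw [h2, Finset.sum_const, nsmul_eq_mul]

/-- bilinear bound for pairs with common divisor `g` -/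
theorem HB (N K g : ℕ) (hgo : Odd g) (hgs : Squarefree g) (B : ℝ) (hB : 0 ≤ B)
    (h : LSB K (N / g) B) (a : ℕ → ℂ) (u : ℕ → ℂ) (U : ℝ) (hU : 0 ≤ U) (hu : ∀ n, ‖u n‖ ≤ U)
    (S : Finset ℤ) (hS : ∀ k ∈ S, Squarefree k.natAbs ∧ k.natAbs ≤ K) (ω : ℤ → ℂ) (hω : ∀ k, ‖ω k‖ ≤ 1) :
    ‖∑ k ∈ S, ω k * ∑ n1 ∈ osf (N / g), ∑ n2 ∈ osf (N / g),
      if n1.Coprime n2 ∧ n1.Coprime g ∧ n2.Coprime g then
        a (g * n1) * (starRingEnd ℂ) (a (g * n2)) * u n1 * u n2 * (js k (n1 * n2) : ℂ) else 0‖ ≤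
      4 * U ^ 2 * B * ∑ n ∈ osf N, (if g ∣ n then (n.divisors.card : ℝ) * ‖a n‖ ^ 2 else 0) := by
  classical
  set R := N / g with hR
  set f1 : ℕ → ℂ := fun n => a (g * n) * u n with hf1
  set f2 : ℕ → ℂ := fun n => (starRingEnd ℂ) (a (g * n)) * u n with hf2
  set b : ℕ → ℝ := fun n => U ^ 2 * ‖a (g * n)‖ ^ 2 with hb
  have hb1 : ∀ n, ‖f1 n‖ ^ 2 ≤ b n := by
    intro n
    simp only [hf1, hb]
    rw [norm_mul, mul_pow, mul_comm]
    have := hu n
    gcongr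
  have hb2 : ∀ n, ‖f2 n‖ ^ 2 ≤ b n := by
    intro n
    simp only [hf2, hb]
    rw [norm_mul, mul_pow, mul_comm, RCLike.norm_conj]
    have := hu n
    gcongr
  have h1 : ∀ k : ℤ, (∑ n1 ∈ osf R, ∑ n2 ∈ osf R,
      if n1.Coprime n2 ∧ n1.Coprime g ∧ n2.Coprime g then
        a (g * n1) * (starRingEnd ℂ) (a (g * n2)) * u n1 * u n2 * (js k (n1 * n2) : ℂ) else 0) =
      ∑ c ∈ Icc 1 R, ((ArithmeticFunction.moebius c : ℤ) : ℂ) *
        ((∑ n ∈ osf R, xc g f1 c n * (js k n : ℂ)) *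
          (∑ n ∈ osf R, xc g f2 c n * (js k n : ℂ))) := by
    intro k
    rw [← expand R g f1 f2 k]
    refine Finset.sum_congr rfl fun n1 _ => Finset.sum_congr rfl fun n2 _ => ?_
    refine if_congr Iff.rfl ?_ rfl
    simp only [hf1, hf2]
    ring
  simp only [h1]
  have h2 : ‖∑ k ∈ S, ω k * ∑ c ∈ Icc 1 R, ((ArithmeticFunction.moebius c : ℤ) : ℂ) *
        ((∑ n ∈ osf R, xc g f1 c n * (js k n : ℂ)) *
          (∑ n ∈ osf R, xc g f2 c n * (js k n : ℂ)))‖ ≤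
      ∑ k ∈ S, ∑ c ∈ Icc 1 R, (‖∑ n ∈ osf R, xc g f1 c n * (js k n : ℂ)‖ ^ 2 +
          ‖∑ n ∈ osf R, xc g f2 c n * (js k n : ℂ)‖ ^ 2) / 2 := by
    refine (norm_sum_le _ _).trans (Finset.sum_le_sum fun k _ => ?_)
    rw [norm_mul]
    have h3 : ‖∑ c ∈ Icc 1 R, ((ArithmeticFunction.moebius c : ℤ) : ℂ) *
        ((∑ n ∈ osf R, xc g f1 c n * (js k n : ℂ)) *
          (∑ n ∈ osf R, xc g f2 c n * (js k n : ℂ)))‖ ≤
        ∑ c ∈ Icc 1 R, (‖∑ n ∈ osf R, xc g f1 c n * (js k n : ℂ)‖ ^ 2 +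
          ‖∑ n ∈ osf R, xc g f2 c n * (js k n : ℂ)‖ ^ 2) / 2 := by
      refine (norm_sum_le _ _).trans (Finset.sum_le_sum fun c _ => ?_)
      rw [norm_mul, norm_mul]
      have h4 : ‖((ArithmeticFunction.moebius c : ℤ) : ℂ)‖ ≤ 1 := by
        rw [Complex.norm_intCast]
        exact_mod_cast ArithmeticFunction.abs_moebius_le_one (n := c)
      refine (mul_le_of_le_one_left (by positivity) h4).trans ?_
      nlinarith [sq_nonneg (‖∑ n ∈ osf R, xc g f1 c n * (js k n : ℂ)‖ -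
        ‖∑ n ∈ osf R, xc g f2 c n * (js k n : ℂ)‖)]
    refine (mul_le_of_le_one_left (norm_nonneg _) (hω k)).trans h3
  refine h2.trans ?_
  rw [Finset.sum_comm]
  have h5 : ∀ c ∈ Icc 1 R, ∑ k ∈ S, (‖∑ n ∈ osf R, xc g f1 c n * (js k n : ℂ)‖ ^ 2 +
          ‖∑ n ∈ osf R, xc g f2 c n * (js k n : ℂ)‖ ^ 2) / 2 ≤
      2 * B * ∑ n ∈ osf R, (if c ∣ n ∧ n.Coprime g then b n else 0) := by
    intro c _
    rw [← Finset.sum_div, Finset.sum_add_distrib]
    have e1 := one_c R K g c B hB h S hS f1 b hb1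
    have e2 := one_c R K g c B hB h S hS f2 b hb2
    linarith
  refine (Finset.sum_le_sum h5).trans ?_
  rw [← Finset.mul_sum, Finset.sum_comm]
  have h6 : ∀ n ∈ osf R, ∑ c ∈ Icc 1 R, (if c ∣ n ∧ n.Coprime g then b n else 0) ≤
      U ^ 2 * (if n.Coprime g then ((g * n).divisors.card : ℝ) * ‖a (g * n)‖ ^ 2 else 0) := by
    intro n hn
    unfold osf at hn
    rw [mem_filter, mem_Icc] at hn
    by_cases hc : n.Coprime g
    · have e3 : ∑ c ∈ Icc 1 R, (if c ∣ n ∧ n.Coprime g then b n else 0) =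
          ∑ c ∈ Icc 1 R, (if c ∣ n then b n else 0) :=
        Finset.sum_congr rfl fun c _ => if_congr (and_iff_left hc) rfl rfl
      rw [e3, count_div R n hn.1.1 hn.1.2, if_pos hc]
      have h7 : (n.divisors.card : ℝ) ≤ ((g * n).divisors.card : ℝ) := by
        have : n.divisors ⊆ (g * n).divisors :=
          Nat.divisors_subset_of_dvd (mul_ne_zero hgo.pos.ne' (by omega)) (Dvd.intro_left _ rfl)
        exact_mod_cast Finset.card_le_card this
      calc (n.divisors.card : ℝ) * (U ^ 2 * ‖a (g * n)‖ ^ 2)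
          ≤ ((g * n).divisors.card : ℝ) * (U ^ 2 * ‖a (g * n)‖ ^ 2) := by gcongr
        _ = U ^ 2 * (((g * n).divisors.card : ℝ) * ‖a (g * n)‖ ^ 2) := by ring
    · rw [if_neg hc, mul_zero]
      refine le_of_eq (Finset.sum_eq_zero fun c _ => if_neg fun h => hc h.2)
  have h8 : ∑ n ∈ osf R, (if n.Coprime g then ((g * n).divisors.card : ℝ) * ‖a (g * n)‖ ^ 2 else 0)
      ≤ ∑ n ∈ osf N, (if g ∣ n then (n.divisors.card : ℝ) * ‖a n‖ ^ 2 else 0) := by
    rw [← Finset.sum_filter, ← Finset.sum_filter]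
    have h9 : ∑ n ∈ osf R with n.Coprime g, ((g * n).divisors.card : ℝ) * ‖a (g * n)‖ ^ 2 =
        ∑ m ∈ ((osf R).filter fun n => n.Coprime g).image (fun n => g * n),
          (m.divisors.card : ℝ) * ‖a m‖ ^ 2 := by
      rw [Finset.sum_image]
      intro x _ y _ hxy
      exact Nat.eq_of_mul_eq_mul_left hgo.pos hxy
    rw [h9]
    refine Finset.sum_le_sum_of_subset_of_nonneg ?_ (fun _ _ _ => by positivity)
    intro m hm
    rw [mem_image] at hm
    obtain ⟨n, hn, rfl⟩ := hm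
    rw [mem_filter] at hn
    obtain ⟨hn1, hn2⟩ := hn
    unfold osf at hn1 ⊢
    rw [mem_filter, mem_Icc] at hn1
    rw [mem_filter, mem_filter, mem_Icc]
    refine ⟨⟨⟨Nat.mul_pos hgo.pos hn1.1.1, ?_⟩, hgo.mul hn1.2.1, ?_⟩, Dvd.intro _ rfl⟩
    · calc g * n ≤ g * (N / g) := Nat.mul_le_mul_left _ hn1.1.2
        _ ≤ N := Nat.mul_div_le N g
    · exact (Nat.squarefree_mul hn2.symm).2 ⟨hgs, hn1.2.2⟩
  have h10 : 0 ≤ ∑ n ∈ osf N, (if g ∣ n then (n.divisors.card : ℝ) * ‖a n‖ ^ 2 else 0) :=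
    Finset.sum_nonneg fun n _ => by split_ifs <;> positivity
  have h11 := Finset.sum_le_sum h6
  rw [← Finset.mul_sum] at h11
  have h12 : U ^ 2 * ∑ n ∈ osf R, (if n.Coprime g then
      ((g * n).divisors.card : ℝ) * ‖a (g * n)‖ ^ 2 else 0) ≤
      U ^ 2 * ∑ n ∈ osf N, (if g ∣ n then (n.divisors.card : ℝ) * ‖a n‖ ^ 2 else 0) :=
    mul_le_mul_of_nonneg_left h8 (sq_nonneg U)
  have h13 := mul_le_mul_of_nonneg_left (h11.trans h12) (mul_nonneg zero_le_two hB)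
  refine h13.trans ?_
  generalize ∑ n ∈ osf N, (if g ∣ n then (n.divisors.card : ℝ) * ‖a n‖ ^ 2 else 0) = T at h10
  have h14 : 0 ≤ U ^ 2 * B * T := mul_nonneg (mul_nonneg (sq_nonneg U) hB) h10
  linarith

end

end Pool.Agent.H375R3.RZ4
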