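import Mathlib
import Pool.Agent.H306R2.Box
import Pool.Agent.H223.EM.MDefs

set_option autoImplicit false

/-!
Task MN3 of the eighth moment project: the norm integral.
-/

namespace Pool.Agent.H375R3.EMMN3

open Finset Filter Topology MeasureTheory
open Pool.Agent.H306R2 Pool.Agent.H306R2.SM Pool.Agent.H223.EM

noncomputable section

/-- Fubini, splitting off one coordinate -/
theorem split {n : ℕ} (i : Fin (n + 1)) (F : ℝ → (Fin n → ℝ) → ℝ)
    (hF : Integrable (fun u : Fin (n + 1) → ℝ => F (u i) (fun j => u (i.succAbove j)))) :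
    (∫ u : Fin (n + 1) → ℝ, F (u i) (fun j => u (i.succAbove j))) = ∫ a, ∫ v, F a v ∧
    ∀ᵐ a, Integrable (F a) := by
  have hp := volume_preserving_piFinSuccAbove (fun _ : Fin (n + 1) => ℝ) i
  let e := MeasurableEquiv.piFinSuccAbove (fun _ : Fin (n + 1) => ℝ) i
  have hcomp : (fun u : Fin (n + 1) → ℝ => F (u i) (fun j => u (i.succAbove j))) =
      (fun p : ℝ × (Fin n → ℝ) => F p.1 p.2) ∘ e := by
    funext u
    rfl
  have hI : Integrable (fun p : ℝ × (Fin n → ℝ) => F p.1 p.2) := by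
    rw [hcomp] at hF
    exact (hp.integrable_comp_emb e.measurableEmbedding).1 hF
  constructor
  · have h1 : (∫ u : Fin (n + 1) → ℝ, F (u i) (fun j => u (i.succAbove j))) =
        ∫ p : ℝ × (Fin n → ℝ), F p.1 p.2 :=
      hp.integral_comp e.measurableEmbedding (fun p : ℝ × (Fin n → ℝ) => F p.1 p.2)
    rw [h1]
    rw [Measure.volume_eq_prod] at hI ⊢
    exact integral_prod _ hI
  · rw [Measure.volume_eq_prod] at hI
    exact hI.prod_right_ae

/-- an integral of a function supported in an interval -/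
theorem hlp (f p : ℝ → ℝ) (A B : ℝ) (hAB : A ≤ B) (h1 : ∀ x ∈ Set.Ioo A B, f x = p x)
    (h0 : ∀ x ∉ Set.Ioo A B, f x = 0) : ∫ x, f x = ∫ x in A..B, p x := by
  rw [← setIntegral_eq_integral_of_forall_compl_eq_zero h0, intervalIntegral.integral_of_le hAB,
    integral_Ioc_eq_integral_Ioo]
  exact setIntegral_congr_fun measurableSet_Ioo h1

/-- strict cutoff at `1/2` -/
def ind (x : ℝ) : ℝ := if x < 1 / 2 then 1 else 0

theorem ind_nonneg (x : ℝ) : 0 ≤ ind x := by unfold ind; split_ifs <;> norm_num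

theorem ind_le_one (x : ℝ) : ind x ≤ 1 := by unfold ind; split_ifs <;> norm_num

theorem ind_meas : Measurable ind := by
  unfold ind
  exact Measurable.ite measurableSet_Iio measurable_const measurable_const

theorem Gamma4 : Real.Gamma 4 = 6 := by
  rw [show (4 : ℝ) = ((3 : ℕ) : ℝ) + 1 by norm_num, Real.Gamma_nat_eq_factorial 3]
  norm_num [Nat.factorial]

theorem gd4 (x : ℝ) : gd 4 x = if 0 < x then x ^ 3 / 6 else 0 := by
  unfold gd
  rw [Gamma4]
  split_ifs with h
  · congr 1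
    have : (4 : ℝ) - 1 = ((3 : ℕ) : ℝ) := by norm_num
    rw [this, Real.rpow_natCast]
  · rfl

/-- the truncated density -/
def g4 (x : ℝ) : ℝ := gd 4 x * ct (1 / 2) x

theorem g4_int : Integrable g4 := gd_ct_integrable (by norm_num) _

/-- the dominating function -/
def bd (u : Fin 4 → ℝ) : ℝ := ∏ i, g4 (u i)

theorem bd_int : Integrable bd :=
  Integrable.fintype_prod (ι := Fin 4) (f := fun _ => g4) (fun _ => g4_int)

theorem Gd_eq (u : Fin 4 → ℝ) : Gd ![4, 4, 4, 4] u = gd 4 (u 0) * gd 4 (u 1) * gd 4 (u 2) * gd 4 (u 3) := by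
  unfold Gd
  rw [Fin.prod_univ_four]
  rfl

theorem gd4_nonneg (x : ℝ) : 0 ≤ gd 4 x := gd_nonneg (by norm_num) x

theorem gd4_zero {x : ℝ} (h : x ≤ 0) : gd 4 x = 0 := by
  rw [gd4, if_neg (not_lt.2 h)]

/-- domination -/
theorem dom (u : Fin 4 → ℝ) (a b c d : ℝ) (ha : 0 ≤ a) (ha1 : a ≤ 1) (hb : 0 ≤ b) (hb1 : b ≤ 1)
    (hc : 0 ≤ c) (hc1 : c ≤ 1) (hd : 0 ≤ d) (hd1 : d ≤ 1) (ha0 : 1 / 2 ≤ u 0 + u 1 → a = 0)
    (hb0 : 1 / 2 ≤ u 2 + u 3 → b = 0) :
    ‖Gd ![4, 4, 4, 4] u * (a * b * c * d)‖ ≤ bd u := by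
  rw [Gd_eq]
  have hprod : bd u = g4 (u 0) * g4 (u 1) * g4 (u 2) * g4 (u 3) := by
    unfold bd
    rw [Fin.prod_univ_four]
  rw [hprod]
  have n0 := gd4_nonneg (u 0)
  have n1 := gd4_nonneg (u 1)
  have n2 := gd4_nonneg (u 2)
  have n3 := gd4_nonneg (u 3)
  have nn : 0 ≤ gd 4 (u 0) * gd 4 (u 1) * gd 4 (u 2) * gd 4 (u 3) := by positivity
  have nabcd : 0 ≤ a * b * c * d := by positivity
  rw [Real.norm_eq_abs, abs_of_nonneg (mul_nonneg nn nabcd)]
  by_cases hz : (a * b * c * d = 0 ∨ ∃ i, u i ≤ 0)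
  · have h0 : gd 4 (u 0) * gd 4 (u 1) * gd 4 (u 2) * gd 4 (u 3) * (a * b * c * d) = 0 := by
      rcases hz with hz | ⟨i, hi⟩
      · rw [hz, mul_zero]
      · have := gd4_zero hi
        fin_cases i
        · simp only [Fin.zero_eta] at this; rw [this]; ring
        · simp only [Fin.mk_one] at this; rw [this]; ring
        · simp only [Fin.reduceFinMk] at this; rw [this]; ring
        · simp only [Fin.reduceFinMk] at this; rw [this]; ring
    rw [h0]
    unfold g4
    have c0 := ct_nonneg (1 / 2) (u 0)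
    have c1 := ct_nonneg (1 / 2) (u 1)
    have c2 := ct_nonneg (1 / 2) (u 2)
    have c3 := ct_nonneg (1 / 2) (u 3)
    positivity
  · push Not at hz
    obtain ⟨hz1, hz2⟩ := hz
    have hane : a ≠ 0 := by
      rintro rfl
      apply hz1
      ring
    have hbne : b ≠ 0 := by
      rintro rfl
      apply hz1
      ring
    have s1 : u 0 + u 1 < 1 / 2 := by
      by_contra h
      exact hane (ha0 (not_lt.1 h))
    have s2 : u 2 + u 3 < 1 / 2 := by
      by_contra h
      exact hbne (hb0 (not_lt.1 h))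
    have p0 := hz2 0
    have p1 := hz2 1
    have p2 := hz2 2
    have p3 := hz2 3
    have e : ∀ x : ℝ, x ≤ 1 / 2 → g4 x = gd 4 x := by
      intro x hx
      unfold g4 ct
      rw [if_pos hx, mul_one]
    rw [e (u 0) (by linarith), e (u 1) (by linarith), e (u 2) (by linarith), e (u 3) (by linarith)]
    have hle : a * b * c * d ≤ 1 := by
      have q1 : a * b ≤ 1 := mul_le_one₀ ha1 hb hb1
      have q2 : a * b * c ≤ 1 := mul_le_one₀ q1 hc hc1
      exact mul_le_one₀ q2 hd hd1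
    calc _ ≤ gd 4 (u 0) * gd 4 (u 1) * gd 4 (u 2) * gd 4 (u 3) * 1 :=
          mul_le_mul_of_nonneg_left hle nn
      _ = _ := mul_one _

theorem Gd_meas : Measurable (fun u : Fin 4 → ℝ => Gd ![4, 4, 4, 4] u) := by
  have : (fun u : Fin 4 → ℝ => Gd ![4, 4, 4, 4] u) =
      fun u => gd 4 (u 0) * gd 4 (u 1) * gd 4 (u 2) * gd 4 (u 3) := by
    funext u
    exact Gd_eq u
  rw [this]
  have m := gd_meas 4
  exact (((m.comp (measurable_pi_apply 0)).mul (m.comp (measurable_pi_apply 1))).mul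
    (m.comp (measurable_pi_apply 2))).mul (m.comp (measurable_pi_apply 3))

/-- the limit integrand -/
def Gl (u : Fin 4 → ℝ) : ℝ :=
  Gd ![4, 4, 4, 4] u * (ind (u 0 + u 1) * ind (u 2 + u 3) * ind (u 0 + u 2) * ind (u 1 + u 3))

theorem Gl_int : Integrable Gl := by
  refine Integrable.mono' bd_int ?_ (Eventually.of_forall fun u => ?_)
  · apply Measurable.aestronglyMeasurable
    unfold Gl
    have m := ind_meas
    refine Gd_meas.mul ((((m.comp ?_).mul (m.comp ?_)).mul (m.comp ?_)).mul (m.comp ?_)) <;> fun_prop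
  · refine dom u _ _ _ _ (ind_nonneg _) (ind_le_one _) (ind_nonneg _) (ind_le_one _)
      (ind_nonneg _) (ind_le_one _) (ind_nonneg _) (ind_le_one _) ?_ ?_
    · intro h
      unfold ind
      rw [if_neg (not_lt.2 h)]
    · intro h
      unfold ind
      rw [if_neg (not_lt.2 h)]

theorem et_cont (ε : ℝ) : Continuous (et ε) := sc_cont _ _

theorem et_nonneg (ε x : ℝ) : 0 ≤ et ε x := sc_nonneg _ _ _

theorem et_le_one (ε x : ℝ) : et ε x ≤ 1 := sc_le_one _ _ _

theorem et_lim (x : ℝ) : Tendsto (fun ε => et ε x) (𝓝[>] 0) (𝓝 (ind x)) := by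
  unfold ind
  split_ifs with h
  · apply tendsto_const_nhds.congr'
    have h1 : ∀ᶠ ε : ℝ in 𝓝[>] 0, ε < (1 / 2 - x) / 2 := by
      apply eventually_nhdsWithin_of_eventually_nhds
      exact gt_mem_nhds (by linarith)
    filter_upwards [h1, self_mem_nhdsWithin] with ε h2 h3
    have h3' : (0 : ℝ) < ε := h3
    unfold et
    rw [sc_eq_one h3' (by linarith)]
  · apply tendsto_const_nhds.congr'
    filter_upwards [self_mem_nhdsWithin] with ε h3
    have h3' : (0 : ℝ) < ε := h3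
    unfold et
    rw [sc_eq_zero h3' (by linarith)]

theorem IN_tendsto : Tendsto IN (𝓝[>] 0) (𝓝 (∫ u, Gl u)) := by
  unfold IN
  refine tendsto_integral_filter_of_dominated_convergence bd ?_ ?_ bd_int ?_
  · refine Eventually.of_forall fun ε => ?_
    apply Measurable.aestronglyMeasurable
    have m := (et_cont ε).measurable
    refine Gd_meas.mul ((((m.comp ?_).mul (m.comp ?_)).mul (m.comp ?_)).mul (m.comp ?_)) <;> fun_prop
  · filter_upwards [self_mem_nhdsWithin] with ε hε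
    have hε' : (0 : ℝ) < ε := hε
    refine Eventually.of_forall fun u => ?_
    refine dom u _ _ _ _ (et_nonneg _ _) (et_le_one _ _) (et_nonneg _ _) (et_le_one _ _)
      (et_nonneg _ _) (et_le_one _ _) (et_nonneg _ _) (et_le_one _ _) ?_ ?_
    · intro h
      unfold et
      rw [sc_eq_zero hε' (by linarith)]
    · intro h
      unfold et
      rw [sc_eq_zero hε' (by linarith)]
  · refine Eventually.of_forall fun u => ?_
    exact tendsto_const_nhds.mul ((((et_lim _).mul (et_lim _)).mul (et_lim _)).mul (et_lim _))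

/-- the inner factor -/
def phi (a b x : ℝ) : ℝ := gd 4 x * (ind (a + x) * ind (x + b))

/-- its integral -/
def Ph (c : ℝ) : ℝ := if c < 1 / 2 then (1 / 2 - c) ^ 4 / 24 else 0

theorem int_phi (a b : ℝ) : ∫ x, phi a b x = Ph (max a b) := by
  unfold Ph
  split_ifs with h
  · have h1 := hlp (phi a b) (fun x => x ^ 3 / 6) 0 (1 / 2 - max a b) (by linarith)
      (by
        intro x hx
        unfold phi ind
        have g1 : a + x < 1 / 2 := by
          have := le_max_left a b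
          linarith [hx.2]
        have g2 : x + b < 1 / 2 := by
          have := le_max_right a b
          linarith [hx.2]
        rw [if_pos g1, if_pos g2, gd4, if_pos hx.1]
        ring)
      (by
        intro x hx
        unfold phi
        rw [Set.mem_Ioo, not_and_or] at hx
        rcases hx with hx | hx
        · rw [gd4_zero (not_lt.1 hx), zero_mul]
        · have hx' := not_lt.1 hx
          unfold ind
          rcases le_total a b with hab | hab
          · rw [max_eq_right hab] at hx'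
            rw [if_neg (show ¬ x + b < 1 / 2 by linarith)]
            ring
          · rw [max_eq_left hab] at hx'
            rw [if_neg (show ¬ a + x < 1 / 2 by linarith)]
            ring)
    rw [h1, intervalIntegral.integral_div, integral_pow]
    norm_num
    ring
  · have h1 : ∀ x, phi a b x = 0 := by
      intro x
      unfold phi
      rcases le_or_gt x 0 with hx | hx
      · rw [gd4_zero hx, zero_mul]
      · unfold ind
        rcases le_total a b with hab | hab
        · rw [max_eq_right hab] at h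
          rw [if_neg (show ¬ x + b < 1 / 2 by linarith)]
          ring
        · rw [max_eq_left hab] at h
          rw [if_neg (show ¬ a + x < 1 / 2 by linarith)]
          ring
    simp [h1]

theorem int_two (a b : ℝ) :
    ∫ w : Fin 2 → ℝ, gd 4 a * gd 4 b * (phi a b (w 0) * phi a b (w 1)) =
      gd 4 a * (gd 4 b * Ph (max a b) ^ 2) := by
  rcases le_or_gt a 0 with ha | ha
  · simp [gd4_zero ha]
  rcases le_or_gt b 0 with hb | hb
  · simp [gd4_zero hb]
  rw [integral_const_mul]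
  have h1 : ∫ w : Fin 2 → ℝ, phi a b (w 0) * phi a b (w 1) = (∫ x, phi a b x) ^ 2 := by
    have h2 := integral_fintype_prod_volume_eq_pow (ι := Fin 2) (phi a b)
    simp only [Fin.prod_univ_two, Fintype.card_fin] at h2
    exact h2
  rw [h1, int_phi a b]
  ring

/-- the integral over `b` -/
def Rin (a : ℝ) : ℝ := ∫ b, gd 4 b * Ph (max a b) ^ 2

/-- three variables -/
def H3 (a : ℝ) (v : Fin 3 → ℝ) : ℝ := gd 4 a * gd 4 (v 0) * gd 4 (v 1) * gd 4 (v 2) *
  (ind (a + v 0) * ind (v 1 + v 2) * ind (a + v 1) * ind (v 0 + v 2))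

/-- two variables -/
def H2 (a b : ℝ) (w : Fin 2 → ℝ) : ℝ := gd 4 a * gd 4 b * (phi a b (w 0) * phi a b (w 1))

theorem Gl_iter : ∫ u, Gl u = ∫ a, gd 4 a * Rin a := by
  have h1 : Gl = fun u : Fin 4 → ℝ => H3 (u 0) (fun j => u ((0 : Fin 4).succAbove j)) := by
    funext u
    unfold Gl
    rw [Gd_eq]
    rfl
  have hI := Gl_int
  rw [h1] at hI
  obtain ⟨e1, e2⟩ := split (0 : Fin 4) H3 hI
  rw [h1, e1]
  apply integral_congr_ae
  filter_upwards [e2] with a ha
  have h2 : H3 a = fun v : Fin 3 → ℝ => H2 a (v 2) (fun j => v ((2 : Fin 3).succAbove j)) := by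
    funext v
    unfold H2 H3
    have s0 : ((2 : Fin 3).succAbove (0 : Fin 2)) = 0 := rfl
    have s1 : ((2 : Fin 3).succAbove (1 : Fin 2)) = 1 := rfl
    simp only [s0, s1]
    unfold phi
    ring
  rw [h2] at ha
  obtain ⟨e3, _⟩ := split (2 : Fin 3) (H2 a) ha
  rw [h2, e3]
  unfold Rin
  rw [← integral_const_mul]
  congr 1
  funext b
  exact int_two a b

theorem Rin_zero {a : ℝ} (ha : 1 / 2 ≤ a) : Rin a = 0 := by
  unfold Rin
  have : ∀ b, gd 4 b * Ph (max a b) ^ 2 = 0 := by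
    intro b
    unfold Ph
    rw [if_neg (by
      have := le_max_left a b
      linarith)]
    ring
  simp [this]

theorem Rin_eq {a : ℝ} (ha : 0 < a) (ha1 : a < 1 / 2) :
    Rin a = (1 / 2 - a) ^ 8 / 576 * (a ^ 4 / 24) +
      1 / 3456 * ((1 / 2 - a) ^ 9 / 72 - 3 * (1 / 2 - a) ^ 10 / 40 + 3 * (1 / 2 - a) ^ 11 / 22 -
        (1 / 2 - a) ^ 12 / 12) := by
  unfold Rin
  have h1 := hlp (fun b => gd 4 b * Ph (max a b) ^ 2)
    (fun b => b ^ 3 / 6 * ((1 / 2 - max a b) ^ 4 / 24) ^ 2) 0 (1 / 2) (by norm_num)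
    (by
      intro b hb
      unfold Ph
      rw [gd4, if_pos hb.1, if_pos (max_lt ha1 hb.2)])
    (by
      intro b hb
      rw [Set.mem_Ioo, not_and_or] at hb
      rcases hb with hb | hb
      · rw [gd4_zero (not_lt.1 hb), zero_mul]
      · unfold Ph
        rw [if_neg (by
          have := le_max_right a b
          linarith [not_lt.1 hb])]
        ring)
  rw [h1]
  have hc : Continuous (fun b : ℝ => b ^ 3 / 6 * ((1 / 2 - max a b) ^ 4 / 24) ^ 2) := by fun_prop
  rw [← intervalIntegral.integral_add_adjacent_intervals (a := 0) (b := a) (c := 1 / 2)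
    (hc.intervalIntegrable _ _) (hc.intervalIntegrable _ _)]
  have e1 : ∫ b in (0 : ℝ)..a, b ^ 3 / 6 * ((1 / 2 - max a b) ^ 4 / 24) ^ 2 =
      (1 / 2 - a) ^ 8 / 576 * (a ^ 4 / 24) := by
    have e1' : ∫ b in (0 : ℝ)..a, b ^ 3 / 6 * ((1 / 2 - max a b) ^ 4 / 24) ^ 2 =
        ∫ b in (0 : ℝ)..a, ((1 / 2 - a) ^ 8 / 576 / 6) * b ^ 3 := by
      apply intervalIntegral.integral_congr
      intro b hb
      rw [Set.uIcc_of_le ha.le] at hb
      simp only
      rw [max_eq_left hb.2]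
      ring
    rw [e1', intervalIntegral.integral_const_mul, integral_pow]
    norm_num
    ring
  have e2 : ∫ b in a..(1 / 2 : ℝ), b ^ 3 / 6 * ((1 / 2 - max a b) ^ 4 / 24) ^ 2 =
      1 / 3456 * ((1 / 2 - a) ^ 9 / 72 - 3 * (1 / 2 - a) ^ 10 / 40 + 3 * (1 / 2 - a) ^ 11 / 22 -
        (1 / 2 - a) ^ 12 / 12) := by
    have e2' : ∫ b in a..(1 / 2 : ℝ), b ^ 3 / 6 * ((1 / 2 - max a b) ^ 4 / 24) ^ 2 =
        ∫ b in a..(1 / 2 : ℝ), b ^ 3 / 6 * ((1 / 2 - b) ^ 4 / 24) ^ 2 := by
      apply intervalIntegral.integral_congr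
      intro b hb
      rw [Set.uIcc_of_le ha1.le] at hb
      simp only
      rw [max_eq_right hb.1]
    rw [e2']
    have hd : ∀ x : ℝ, HasDerivAt (fun x : ℝ => -(1 / 3456 * ((1 / 2 - x) ^ 9 / 72 -
        3 * (1 / 2 - x) ^ 10 / 40 + 3 * (1 / 2 - x) ^ 11 / 22 - (1 / 2 - x) ^ 12 / 12)))
        (x ^ 3 / 6 * ((1 / 2 - x) ^ 4 / 24) ^ 2) x := by
      intro x
      have h0 : HasDerivAt (fun x : ℝ => (1 / 2 : ℝ) - x) (-1) x := by
        simpa using (hasDerivAt_id x).const_sub (1 / 2 : ℝ)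
      have := (((((h0.pow 9).div_const 72).sub (((h0.pow 10).const_mul 3).div_const 40)).add
        (((h0.pow 11).const_mul 3).div_const 22)).sub ((h0.pow 12).div_const 12)).const_mul
          (1 / 3456 : ℝ)
      refine (this.neg).congr_deriv ?_
      norm_num
      ring
    rw [intervalIntegral.integral_eq_sub_of_hasDerivAt (fun x _ => hd x)
      (Continuous.intervalIntegrable (by fun_prop) _ _)]
    norm_num
    try ring
  rw [e1, e2]

theorem outer : ∫ a, gd 4 a * Rin a = 1 / 279835909816320 := by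
  have h1 := hlp (fun a => gd 4 a * Rin a)
    (fun a => a ^ 3 / 6 * ((1 / 2 - a) ^ 8 / 576 * (a ^ 4 / 24) +
      1 / 3456 * ((1 / 2 - a) ^ 9 / 72 - 3 * (1 / 2 - a) ^ 10 / 40 + 3 * (1 / 2 - a) ^ 11 / 22 -
        (1 / 2 - a) ^ 12 / 12))) 0 (1 / 2) (by norm_num)
    (by
      intro a ha
      rw [Rin_eq ha.1 ha.2, gd4, if_pos ha.1])
    (by
      intro a ha
      rw [Set.mem_Ioo, not_and_or] at ha
      rcases ha with ha | ha
      · rw [gd4_zero (not_lt.1 ha), zero_mul]
      · rw [Rin_zero (not_lt.1 ha), mul_zero])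
  rw [h1]
  have hd : ∀ x : ℝ, HasDerivAt (fun x : ℝ => (1 / 672682475520 : ℝ) * x ^ 4 + (-1 / 59719680 : ℝ) * x ^ 9 + (7 / 39813120 : ℝ) * x ^ 10 + (-1 / 1216512 : ℝ) * x ^ 11 + (35 / 15925248 : ℝ) * x ^ 12 + (-35 / 9704448 : ℝ) * x ^ 13 + (1 / 276480 : ℝ) * x ^ 14 + (-7 / 3421440 : ℝ) * x ^ 15 + (1 / 1990656 : ℝ) * x ^ 16)
      (x ^ 3 / 6 * ((1 / 2 - x) ^ 8 / 576 * (x ^ 4 / 24) +
      1 / 3456 * ((1 / 2 - x) ^ 9 / 72 - 3 * (1 / 2 - x) ^ 10 / 40 + 3 * (1 / 2 - x) ^ 11 / 22 -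
        (1 / 2 - x) ^ 12 / 12))) x := by
    intro x
    have := ((((((((((hasDerivAt_pow 4 x).const_mul (1 / 672682475520 : ℝ)).add ((hasDerivAt_pow 9 x).const_mul (-1 / 59719680 : ℝ))).add ((hasDerivAt_pow 10 x).const_mul (7 / 39813120 : ℝ))).add ((hasDerivAt_pow 11 x).const_mul (-1 / 1216512 : ℝ))).add ((hasDerivAt_pow 12 x).const_mul (35 / 15925248 : ℝ))).add ((hasDerivAt_pow 13 x).const_mul (-35 / 9704448 : ℝ))).add ((hasDerivAt_pow 14 x).const_mul (1 / 276480 : ℝ))).add ((hasDerivAt_pow 15 x).const_mul (-7 / 3421440 : ℝ))).add ((hasDerivAt_pow 16 x).const_mul (1 / 1990656 : ℝ)))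
    refine this.congr_deriv ?_
    norm_num
    ring
  rw [intervalIntegral.integral_eq_sub_of_hasDerivAt (fun x _ => hd x)
    (Continuous.intervalIntegrable (by fun_prop) _ _)]
  norm_num

/-- MN3 -/
theorem IN_lim : Tendsto IN (𝓝[>] 0) (𝓝 (1225 / 16384 / (Nat.factorial 16 : ℝ))) := by
  have h := IN_tendsto
  rw [Gl_iter, outer] at h
  have e : (1225 / 16384 / (Nat.factorial 16 : ℝ)) = 1 / 279835909816320 := by
    norm_num [Nat.factorial]
  rw [e]
  exact h

end

end Pool.Agent.H375R3.EMMN3
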